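import Mathlib
import Pool.Agent.W811.LW.Stm2

set_option autoImplicit false

open Filter Topology

namespace Pool.Agent.W865.LW

theorem core (L : ℕ → ℕ) (κ : ℕ → ℝ) (hL : StrictMono L) (hκ : ∀ n, 1 ≤ κ n)
    (hr : Tendsto (fun k => (L (k + 1) : ℝ) / (L k : ℝ)) atTop (𝓝 1))
    (hlog : Tendsto (fun k => Real.log (κ (L k)) / (L k : ℝ)) atTop (𝓝 0))
    (ψ : ℕ → ℝ) (hC : ∀ C : ℝ, ∀ᶠ k in atTop, C * κ (L k) ^ 4 ≤ ψ k)
    (ξ ζ D c : ℝ) (hD : 1 < D) (hc : 0 < c)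
    (H : ∀ (k : ℕ) (q p p' : ℤ), 0 < q → (q : ℝ) ≤ c / κ (L k) ^ 2 * D ^ (L k) →
      |(q : ℝ) * ξ - p| ≤ 1 →
      c / κ (L k) ^ 2 ≤ D ^ (L k) * (|(q : ℝ) * ξ - p| * |(q : ℝ) * ζ - p'|)) :
    ∃ Q : ℕ → ℝ, Tendsto Q atTop atTop ∧
      Tendsto (fun k => Real.log (Q (k + 1)) / Real.log (Q k)) atTop (𝓝 1) ∧
      ∀ᶠ k in atTop, 1 / ψ k ≤ Q k * ⨅ q : {q : ℕ // 0 < q ∧ (q : ℝ) ≤ Q k},
        |((q.1 : ℝ) * ξ) - (round ((q.1 : ℝ) * ξ) : ℝ)| *
        |((q.1 : ℝ) * ζ) - (round ((q.1 : ℝ) * ζ) : ℝ)| := by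
  set Q : ℕ → ℝ := fun k => c / κ (L k) ^ 2 * D ^ (L k) with hQ
  have hκ0 : ∀ n, 0 < κ n := fun n => lt_of_lt_of_le one_pos (hκ n)
  have hQpos : ∀ k, 0 < Q k := fun k => by
    have := hκ0 (L k)
    have h2 : 0 < D := by linarith
    simp only [hQ]; positivity
  have hLt : Tendsto (fun k => (L k : ℝ)) atTop atTop :=
    tendsto_natCast_atTop_atTop.comp hL.tendsto_atTop
  have hLpos : ∀ᶠ k in atTop, (0 : ℝ) < L k := hLt.eventually_gt_atTop 0
  have hlogQ : ∀ k, Real.log (Q k) = Real.log c - 2 * Real.log (κ (L k)) + L k * Real.log D := by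
    intro k
    have h1 := hκ0 (L k)
    have h2 : 0 < D := by linarith
    simp only [hQ]
    rw [Real.log_mul (by positivity) (by positivity), Real.log_div hc.ne' (by positivity),
      Real.log_pow, Real.log_pow]
    push_cast; ring
  have hlD : 0 < Real.log D := Real.log_pos hD
  have hlim : Tendsto (fun k => Real.log (Q k) / (L k : ℝ)) atTop (𝓝 (Real.log D)) := by
    have h1 : Tendsto (fun k => Real.log c / (L k : ℝ)) atTop (𝓝 0) :=
      hLt.const_div_atTop _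
    have h2 := (h1.sub (hlog.const_mul 2)).add_const (Real.log D)
    simp only [mul_zero, sub_zero, zero_add] at h2
    refine h2.congr' ?_
    filter_upwards [hLpos] with k hk
    rw [hlogQ]
    field_simp
  have hlogtop : Tendsto (fun k => Real.log (Q k)) atTop atTop := by
    have h1 := hlim.pos_mul_atTop hlD hLt
    refine h1.congr' ?_
    filter_upwards [hLpos] with k hk
    field_simp
  have hQtop : Tendsto Q atTop atTop := by
    have h1 := Real.tendsto_exp_atTop.comp hlogtop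
    refine h1.congr fun k => ?_
    simp [Real.exp_log (hQpos k)]
  refine ⟨Q, hQtop, ?_, ?_⟩
  · have h1 := hlim.comp (tendsto_add_atTop_nat 1)
    have h2 := (h1.div hlim hlD.ne').mul hr
    rw [div_self hlD.ne', one_mul] at h2
    refine h2.congr' ?_
    filter_upwards [hLpos, (tendsto_add_atTop_nat 1).eventually hLpos,
      hlogtop.eventually_gt_atTop 0] with k hk hk1 hk2
    simp only [Pi.div_apply, Function.comp_apply]
    have hk1' : (0:ℝ) < (L (k + 1) : ℝ) := hk1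
    field_simp
  · filter_upwards [hQtop.eventually_ge_atTop 1, hC (1 / c ^ 2)] with k hk hk2
    have hκk := hκ0 (L k)
    have hD1 : 0 < D := by linarith
    have hD0 : 0 < D ^ (L k) := by positivity
    have : Nonempty {q : ℕ // 0 < q ∧ (q : ℝ) ≤ Q k} := ⟨⟨1, one_pos, by simpa using hk⟩⟩
    have h1 : (c / κ (L k) ^ 2) ^ 2 / Q k ≤ ⨅ q : {q : ℕ // 0 < q ∧ (q : ℝ) ≤ Q k},
        |((q.1 : ℝ) * ξ) - (round ((q.1 : ℝ) * ξ) : ℝ)| *
        |((q.1 : ℝ) * ζ) - (round ((q.1 : ℝ) * ζ) : ℝ)| := by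
      apply le_ciInf
      intro q
      have h2 := H k (q.1 : ℤ) (round ((q.1 : ℝ) * ξ)) (round ((q.1 : ℝ) * ζ))
        (by exact_mod_cast q.2.1) (by exact_mod_cast q.2.2) (by
          have := abs_sub_round ((q.1 : ℝ) * ξ)
          push_cast
          linarith)
      push_cast at h2
      rw [div_le_iff₀ (hQpos k)]
      have h4 : 0 < c / κ (L k) ^ 2 := by positivity
      calc (c / κ (L k) ^ 2) ^ 2 = (c / κ (L k) ^ 2) * (c / κ (L k) ^ 2) := by ring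
        _ ≤ (c / κ (L k) ^ 2) * (D ^ (L k) * (|(q.1 : ℝ) * ξ - round ((q.1 : ℝ) * ξ)| *
              |(q.1 : ℝ) * ζ - round ((q.1 : ℝ) * ζ)|)) := mul_le_mul_of_nonneg_left h2 h4.le
        _ = |(q.1 : ℝ) * ξ - round ((q.1 : ℝ) * ξ)| *
              |(q.1 : ℝ) * ζ - round ((q.1 : ℝ) * ζ)| * (c / κ (L k) ^ 2 * D ^ (L k)) := by ring
    have h5 : (c / κ (L k) ^ 2) ^ 2 ≤ Q k * ⨅ q : {q : ℕ // 0 < q ∧ (q : ℝ) ≤ Q k},
        |((q.1 : ℝ) * ξ) - (round ((q.1 : ℝ) * ξ) : ℝ)| *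
        |((q.1 : ℝ) * ζ) - (round ((q.1 : ℝ) * ζ) : ℝ)| := by
      rw [div_le_iff₀ (hQpos k)] at h1
      rw [mul_comm]; exact h1
    refine le_trans ?_ h5
    have h6 : 0 < 1 / c ^ 2 * κ (L k) ^ 4 := by positivity
    calc 1 / ψ k ≤ 1 / (1 / c ^ 2 * κ (L k) ^ 4) := one_div_le_one_div_of_le h6 hk2
      _ = (c / κ (L k) ^ 2) ^ 2 := by field_simp

/-- **Part LWB-LASTB** -/
theorem lastb (h : Pool.Agent.W811.LW.FINB) (hl : Pool.Agent.W811.LW.LSEQB) :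
    Pool.Agent.W811.LW.LASTB := by
  intro ψ hψ
  obtain ⟨L, κ, hL, hκm, hκ, hcnt, hr, hlog, hC⟩ := hl ψ hψ
  obtain ⟨ξ, ζ, D, c, hD, hc, H⟩ := h L κ hL hκm hκ hcnt
  exact ⟨ξ, ζ, core L κ hL hκ hr hlog ψ (fun C => by simpa using hC C 0) ξ ζ D c hD hc H⟩

end Pool.Agent.W865.LW
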